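import Pool.Agent.Lib.MP_688fd0_co.SQ5.H67.RunArc
import Pool.Agent.Lib.MP_688fd0_co.SQ5.H53.RegG

/-!
MP_688fd0_co, type C2, case FAR-3, row RUNARC (helper67): the arcs through the events for the run charts of helper76.

`runs H c ..`: the run charts of the main group as `Runs`. `eve`: the event edge between the last level of the run `z` and the
first level of the run `z'`, `z + 1 = z' + x * Et`. RESULT `harc`: the arc from the upper end of the strand `s` of the run `z` to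
the lower end of the strand `s'` of the run `z'`, `s' = pass s`, avoids the active strands.
-/

set_option autoImplicit false

namespace Pool.Agent.Lib.MP_688fd0_co.SQ5.H67

open Function Pool.Agent.Lib.MP_688fd0_co.OSF Pool.Agent.Lib.MP_688fd0_co.SQ5.H95 Pool.Agent.Lib.MP_688fd0_co.SQ5.H76
open Pool.Agent.Lib.MP_688fd0_co.SQ5.H53

universe u v

section runs

variable {L : AddSubgroup (ℤ × ℤ)} {M R : ℕ} {dc : ℕ → ℤ} {spc : ℕ → Prop} {Gr : ℤ} {g : Geo L M R dc spc Gr} {m0 : ℕ}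
  {hw : ℤ → ℕ} (H : Geo.Mn g m0 hw) {Q : Type u} [Group Q] {B : Lb.{u, v} Q} {l : L3 → B.L} (c : Cov B l L)
  (hi : ∀ i, B.inv (l i) = l i) (hq : Injective (qq B l)) (hii : ∀ x, B.inv (B.inv x) = x) (κ0 κ1 : ℤ)

/-- The run charts of the main group. -/
noncomputable def runs (h0 : 2 ≤ κ0) (h1 : κ1 ≤ m0) : Runs (ff c hi hq hii g) (Zr g) (SS c H κ0 κ1) where
  C z := (H.bd z).chart c (g.rs z) κ0 κ1
  E z := g.rE z
  run z := RnF.of_rn ((H.rg z h0 h1).rn c hi hq) hii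
  far z z' m s i m' s' i' hne hm hi1 hm' hi2 he := by
    obtain ⟨e, -⟩ := H.far c hi (z := z) (z' := z') (Zr.sub_lt z z') (Zr.sub_lt z' z) h0 h1 h0 h1 hm hm' hi1 hi2 he
    exact hne (Subtype.ext e)

variable {κ0 κ1}

/-- The instance of helper95. -/
theorem inst_eq (h0 : 2 ≤ κ0) (h1 : κ1 ≤ m0) (p : ℕ) (hp : 2 ≤ p) (hN : ∀ z : Zr g, p ≤ g.rE z)
    (hl : ∀ _ : Zr g, 1 ≤ p - 1) (hn : ∀ z : Zr g, 0 < g.rE z / p) (hE : ∀ z : Zr g, g.rE z / p * (p - 1 + 1) ≤ g.rE z) :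
    inst H c hi hq hii κ0 κ1 h0 h1 p hp hN =
      (runs H c hi hq hii κ0 κ1 h0 h1).rgs (fun _ => p - 1) (fun z => g.rE z / p) hl hn hE := rfl

/-- THE EVENT EDGE. -/
theorem eve (h0 : 2 ≤ κ0) (h1 : κ1 ≤ m0) {z z' : Zr g} {s : SS c H κ0 κ1 z} {s' : SS c H κ0 κ1 z'}
    (hs : s'.1 = RegC.pass (qq B l) (H.bd z) (g.rs z) (g.rE z) (RegC.dle g z) s.1) :
    (runs H c hi hq hii κ0 κ1 h0 h1).EvE z z' s s' := by
  have Hr := H.rg z h0 h1
  show (ff c hi hq hii g).Ed (((H.bd z).chart c (g.rs z) κ0 κ1).Z (g.rE z) s (((H.bd z).chart c (g.rs z) κ0 κ1).h (g.rE z) s))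
    (((H.bd z').chart c (g.rs z') κ0 κ1).Z 0 s' 0)
  set y := ((H.bd z).chart c (g.rs z) κ0 κ1).Z (g.rE z) s (((H.bd z).chart c (g.rs z) κ0 κ1).h (g.rE z) s) with hy
  have hZ : ((H.bd z').chart c (g.rs z') κ0 κ1).Z 0 s' 0 = y * B.q (l .t) := by
    show s'.1.2 * (H.bd z').pos (qq B l) (g.rs z') s'.1.1 ((0 : ℕ) : ℤ) 0 =
      s.1.2 * (H.bd z).pos (qq B l) (g.rs z) s.1.1 ((g.rE z : ℕ) : ℤ) ((H.bd z).ln s.1.1 (g.rs z + ((g.rE z : ℕ) : ℤ))) * qq B l .t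
    rw [Nat.cast_zero, Bd.pos_zero, mul_one, mul_assoc, ← (H.bd z).pos_up, hs]
    rfl
  have hm : g.mt c y ≠ .t := by
    have h := Hr.mt_end c s.2.1 s.2.2.1 (m := g.rE z) le_rfl (y := y) (Z_over (H.bd z) c hi (g.rE z) s _)
    rw [h]
    exact wl_ne_t _
  rw [hZ]
  refine ((g.mch c hi hq).ed hii).2 ⟨tri_adj.2 ⟨.t, rfl⟩, fun h => hm ?_⟩
  have h2 : y * B.q (l .t) = y * B.q (l (g.mt c y)) := h
  exact (hq (mul_left_cancel h2)).symm

/-- THE ARC. -/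
theorem harc (h0 : 2 ≤ κ0) (h1 : κ1 ≤ m0) (p : ℕ) (hp : 2 ≤ p) (hN : ∀ z : Zr g, p ≤ g.rE z) (V : ∀ z : Zr g, Set (SS c H κ0 κ1 z))
    {z z' : Zr g} {s : SS c H κ0 κ1 z} {s' : SS c H κ0 κ1 z'}
    (hs : s'.1 = RegC.pass (qq B l) (H.bd z) (g.rs z) (g.rE z) (RegC.dle g z) s.1) :
    H22.Cn (ff c hi hq hii g).Ed {y | ¬ (inst H c hi hq hii κ0 κ1 h0 h1 p hp hN).ActR V y}
      ((inst H c hi hq hii κ0 κ1 h0 h1 p hp hN).ev z (s, true)) ((inst H c hi hq hii κ0 κ1 h0 h1 p hp hN).ev z' (s', false)) := by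
  have hE : ∀ z : Zr g, g.rE z / p * (p - 1 + 1) ≤ g.rE z := fun z => inst_le hp le_rfl
  exact Runs.arc (P := runs H c hi hq hii κ0 κ1 h0 h1) (l := fun _ => p - 1) (N := fun z => g.rE z / p)
    (hl := fun _ => by omega) (hn := fun z => Nat.div_pos (hN z) (by omega)) (hE := hE) V (eve H c hi hq hii h0 h1 hs)

end runs

end Pool.Agent.Lib.MP_688fd0_co.SQ5.H67
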