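import Pool.Agent.Lib.MP_688fd0_co.SQ5.NA.Iface
import Pool.Agent.Lib.MP_688fd0_co.SQ4.H31.Heart

/-!
Row LOCA of NEAR-ALL: windows and flips of a local world (from CLSA, GRAPHA, FLIPA, EXA, EXAT).
-/

set_option autoImplicit false

namespace Pool.Agent.Lib.MP_688fd0_co.SQ5.NA

open Pool.Agent.Lib.MP_688fd0_co.OSF Pool.Agent.Lib.MP_688fd0_co.SQ2 Pool.Agent.Lib.MP_688fd0_co.SQ3
open Pool.Agent.Lib.MP_688fd0_co.SQ4 Pool.Agent.Lib.MP_688fd0_co.SQ5.N
open SQ2.V (Puz)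

namespace Loc

/-! ### Voltages -/

section volt

variable {Q : Type} [Group Q] {B : Lb.{0, 0} Q} {a b : B.L} {σ : Type} {t : σ → B.L} {eps : Q →* ℤˣ}
  {D : Subgroup Q} {u : Q} {i : σ → ℕ} {e k : ℕ} (H : HypS B a b t eps D u i e k) {p : ℕ} [Fact p.Prime]
  (V : Vd B (ZMod p))
include H

theorem w_eq : B.q a * (B.q b)⁻¹ = u ^ e * (H.wD : Q) := by
  show _ = u ^ e * ((u ^ e)⁻¹ * (B.q a * (B.q b)⁻¹))
  rw [mul_inv_cancel_left]

theorem p_eq (s : σ) : B.q a * (B.q (t s))⁻¹ = u ^ i s * (H.pD s : Q) := by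
  show _ = u ^ i s * ((u ^ i s)⁻¹ * (B.q a * (B.q (t s))⁻¹))
  rw [mul_inv_cancel_left]

theorem chi_g (hu : V.chi u = 1) (v : Fin e × D) : V.chi (gN D u e v) = V.chi (v.2 : Q) := by
  show V.chi (u ^ (v.1 : ℕ) * (v.2 : Q)) = _
  rw [map_mul, map_pow, hu, one_pow, one_mul]

theorem chi_w (hu : V.chi u = 1) : V.chi (H.wD : Q) = V.chi (B.q a * (B.q b)⁻¹) := by
  rw [w_eq H, map_mul, map_pow, hu, one_pow, one_mul]

theorem chi_p (hu : V.chi u = 1) (s : σ) : V.chi (H.pD s : Q) = V.chi (B.q a * (B.q (t s))⁻¹) := by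
  rw [p_eq H, map_mul, map_pow, hu, one_pow, one_mul]

theorem eps_g (v : Fin e × D) : eps (gN D u e v) = 1 := by
  show eps (u ^ (v.1 : ℕ) * (v.2 : Q)) = 1
  rw [map_mul, map_pow, H.eu, one_pow, one_mul]
  exact H.leD v.2.2

/-- The volume of a rung. -/
theorem e_rung (υ υ' : ZMod p) (s : σ) (r : RgN e k D) :
    (evA V eps υ υ').e (gN D u e r.1 * (B.q a * (B.q b)⁻¹) ^ (r.2 : ℕ)) (t s) =
      V.chi (gN D u e r.1 * (B.q a * (B.q b)⁻¹) ^ (r.2 : ℕ)) * (V.n (t s) + V.chi (B.q (t s)) * υ' - υ) := by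
  have h1 : eps (gN D u e r.1 * (B.q a * (B.q b)⁻¹) ^ (r.2 : ℕ)) = 1 := by
    rw [map_mul, eps_g H, map_pow, H.eps_w, one_pow, one_mul]
  rw [evA_ref V eps _ _ _ (t s) (H.et s)]
  unfold ptA
  rw [if_pos h1, if_pos h1]

/-- A common fixed pair of `a` and `b`: the vertical edges have the volume `0`. -/
theorem e_up {y y' : ZMod p} (ha : V.n a + V.chi (B.q a) * y' = y) (hb : V.n b + V.chi (B.q b) * y' = y) (x : Q) :
    (evA V eps y y').e x (H.up.up x) = 0 := by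
  have hb' : eps (B.q (B.inv b)) = -1 := by rw [B.q_inv, map_inv, H.eb]; decide
  have hbi : V.chi (B.q b)⁻¹ * V.chi (B.q b) = 1 := chi_inv_mul V (B.q b)
  rcases Int.units_eq_one_or (eps x) with hx | hx
  · have h4 : H.up.up x = a := if_pos hx
    rw [h4, evA_ref V eps _ _ _ a H.ea]
    unfold ptA
    rw [if_pos hx, if_pos hx, ha, sub_self, mul_zero]
  · have hne : eps x ≠ 1 := by rw [hx]; decide
    have h4 : H.up.up x = B.inv b := if_neg hne
    rw [h4, evA_ref V eps _ _ _ _ hb']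
    unfold ptA
    rw [if_neg hne, if_neg hne, V.n_inv, B.q_inv]
    linear_combination (-(V.chi x) * V.chi (B.q b)⁻¹) * hb + V.chi x * y' * hbi

/-- With the condition `KapA` the volumes are not exact. -/
theorem kap_false [Fintype σ] [NeZero e] [Fintype D] (hEx : ExaNS) (hEt : ExaTS) {v₀ : Fin e × D}
    {A : Fin e × D → Prop} (hA : CmpA e H.wD H.pD i k v₀ A) (hp : 4 * Fintype.card σ * e * k < p)
    (hu : V.chi u = 1)
    (h1 : ∀ υ υ' o : ZMod p, (∀ y, (evA V eps υ υ').e y (H.up.up y) = o) →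
          ∃ Φ : Fin e × D → ZMod p, ∀ r : RgA σ e k D, A r.2.1 →
            (evA V eps υ υ').e (gN D u e r.2.1 * (B.q a * (B.q b)⁻¹) ^ (r.2.2 : ℕ)) (t r.1) + drN (i r.1) r.2.1 o =
              Φ (yA e H.wD H.pD i k r) - Φ r.2.1)
    (h2 : V.chi (B.q a * (B.q b)⁻¹) = 1 → nuW V a b ≠ 0 → ∀ r : RgA σ e k D, A r.2.1 →
          V.chi (gN D u e r.2.1) = V.chi (gN D u e (yA e H.wD H.pD i k r))) (s s' : σ) :
    ¬ KapA V a b (t s) (t s') := by
  have hk := H.kpos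
  have he := H.epos
  have hA0 : A v₀ := (hA v₀).2 Relation.ReflTransGen.refl
  have hσ : 0 < Fintype.card σ := Fintype.card_pos_iff.2 ⟨s⟩
  have hek : e * k < p := by
    have h3 : e * k ≤ 4 * Fintype.card σ * e * k := by
      rw [mul_assoc]
      exact Nat.le_mul_of_pos_left _ (by omega)
    omega
  have hekp : 0 < e * k := Nat.mul_pos he hk
  have hne0 : ((e * k : ℕ) : ZMod p) ≠ 0 := by
    rw [Ne, ZMod.natCast_eq_zero_iff]
    intro h3
    have := Nat.le_of_dvd hekp h3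
    omega
  have hiff : ∀ (s : σ) (r : RgN e k D), A r.1 ↔ A (yN e H.wD (H.pD s) (i s) k r) := by
    intro s r
    rw [hA, hA]
    constructor
    · intro h1
      exact h1.tail ⟨s, r, Or.inl ⟨rfl, rfl⟩⟩
    · intro h1
      exact h1.tail ⟨s, r, Or.inr ⟨rfl, rfl⟩⟩
  -- the exact volumes, fixed pair
  have hdr : ∀ (s : σ) (v : Fin e × D), drN (i s) v (0 : ZMod p) = 0 := by
    intro s v
    unfold drN
    split_ifs
    · rfl
    · exact neg_zero
  have hvol : ∀ {y y' : ZMod p}, V.n a + V.chi (B.q a) * y' = y → V.n b + V.chi (B.q b) * y' = y →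
      ∃ Φ : Fin e × D → ZMod p, ∀ (s : σ) (r : RgN e k D), A r.1 →
        V.chi (r.1.2 : Q) * V.chi (B.q a * (B.q b)⁻¹) ^ (r.2 : ℕ) * (V.n (t s) + V.chi (B.q (t s)) * y' - y) =
          Φ (yN e H.wD (H.pD s) (i s) k r) - Φ r.1 := by
    intro y y' ha hb
    obtain ⟨Φ, hΦ⟩ := h1 y y' 0 (e_up H V ha hb)
    refine ⟨Φ, fun s r hr => ?_⟩
    have h3 := hΦ ⟨s, r⟩ hr
    have h4 : (evA V eps y y').e (gN D u e r.1 * (B.q a * (B.q b)⁻¹) ^ (r.2 : ℕ)) (t s) + drN (i s) r.1 0 =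
        Φ (yN e H.wD (H.pD s) (i s) k r) - Φ r.1 := h3
    rw [e_rung H V y y' s r, map_mul, chi_g H V hu, map_pow, hdr, add_zero] at h4
    exact h4
  rintro (⟨hw, hnu, hne⟩ | ⟨y, y', ha, hb, hpq, hno⟩ | ⟨y, y', ha, hb, hw, hst, hno⟩)
  · -- `w` is a translation
    have h3 := h2 hw hnu ⟨s, (v₀, ⟨0, hk⟩)⟩ hA0
    have h4 : V.chi (gN D u e v₀) = V.chi (gN D u e (yN e H.wD (H.pD s) (i s) k (v₀, ⟨0, hk⟩))) := h3
    rw [chi_g H V hu, chi_g H V hu] at h4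
    have h5 : ∃ c : ℤ, ((yN e H.wD (H.pD s) (i s) k (v₀, ⟨0, hk⟩)).2 : D) =
        v₀.2 * H.wD ^ (0 : ℕ) * (H.pD s)⁻¹ * H.wD ^ c := ⟨_, rfl⟩
    obtain ⟨c, hc⟩ := h5
    have hwD : V.chi (H.wD : Q) = 1 := (chi_w H V hu).trans hw
    have hzc : V.chi ((H.wD ^ c : D) : Q) = 1 := by
      rw [Subgroup.coe_zpow]
      exact H31.chi_zpow V hwD c
    rw [hc, pow_zero, mul_one, Subgroup.coe_mul, Subgroup.coe_mul, Subgroup.coe_inv, map_mul, map_mul, hzc,
      mul_one] at h4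
    have h6 : V.chi (v₀.2 : Q) ≠ 0 := SQ4.chi_ne V _
    have h7 : V.chi ((H.pD s : D) : Q)⁻¹ = 1 := by
      have : V.chi (v₀.2 : Q) * 1 = V.chi (v₀.2 : Q) * V.chi ((H.pD s : D) : Q)⁻¹ := by
        rw [mul_one]; exact h4
      exact (mul_left_cancel₀ h6 this).symm
    have h8 := chi_inv_mul V ((H.pD s : D) : Q)
    rw [h7, one_mul, chi_p H V hu] at h8
    exact hne h8
  · -- a fixed pair of `a`, `b`, and `s` is exact
    obtain ⟨Φ, hΦ⟩ := hvol ha hb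
    apply hno
    have hmono : ∀ v, Relation.ReflTransGen (JnN e H.wD (H.pD s) (i s) k) v₀ v → A v := by
      intro v hv
      rw [hA]
      exact Relation.ReflTransGen.mono (fun x y hxy => ⟨s, hxy⟩) _ _ hv
    have hτ : V.n (t s) + V.chi (B.q (t s)) * y' - y = 0 := by
      refine hEx D H.wD (H.pD s) (i s) e k (H.ipos s) (H.ilt s) hk H.card v₀
        (fun v => Relation.ReflTransGen (JnN e H.wD (H.pD s) (i s) k) v₀ v) (fun v => Iff.rfl) (ZMod p)
        (V.chi.comp D.subtype) ?_ hne0 _ Φ ?_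
      · show V.chi (H.pD s : Q) = 1 ∨ V.chi (H.wD : Q) = V.chi (H.pD s : Q)
        rw [chi_p H V hu, chi_w H V hu]
        rcases hpq with h3 | h3
        · exact Or.inl h3
        · right
          have h4 : B.q a * (B.q b)⁻¹ = B.q a * (B.q (t s))⁻¹ * (B.q (t s) * (B.q b)⁻¹) := by group
          rw [h4, map_mul, h3, mul_one]
      · intro r hr
        have h3 := hΦ s r (hmono _ hr)
        rw [← chi_w H V hu] at h3
        exact h3
    exact sub_eq_zero.1 hτ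
  · -- a fixed pair of `a`, `b`, and two letters
    obtain ⟨Φ, hΦ⟩ := hvol ha hb
    apply hno
    have hτ : V.n (t s) + V.chi (B.q (t s)) * y' - y = V.n (t s') + V.chi (B.q (t s')) * y' - y := by
      refine hEt D H.wD (H.pD s) (H.pD s') (i s) (i s') e k (H.ipos s) (H.ilt s) (H.ipos s') (H.ilt s') hk H.card v₀
        A hA0 (hiff s) (hiff s') (ZMod p) (V.chi.comp D.subtype) ?_ ?_ hne0 _ _ Φ ?_ ?_
      · exact (chi_w H V hu).trans hw
      · show V.chi (H.pD s : Q) = V.chi (H.pD s' : Q)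
        rw [chi_p H V hu, chi_p H V hu, map_mul, map_mul]
        congr 1
        have h3 := chi_inv_mul V (B.q (t s))
        have h4 := chi_inv_mul V (B.q (t s'))
        rw [hst] at h3
        exact mul_right_cancel₀ (SQ4.chi_ne V (B.q (t s'))) (h3.trans h4.symm)
      · intro r hr
        have h3 := hΦ s r hr
        rw [hw, one_pow, mul_one] at h3
        exact h3
      · intro r hr
        have h3 := hΦ s' r hr
        rw [hw, one_pow, mul_one] at h3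
        exact h3
    rw [hst] at hτ
    linear_combination hτ

end volt

/-! ### The closed puzzle of a component -/

section main

variable {Q : Type} [Group Q] [DecidableEq Q] {B : Lb.{0, 0} Q} {a b : B.L} {σ : Type} {t : σ → B.L}
  {eps : Q →* ℤˣ} {D : Subgroup Q} {u : Q} {i : σ → ℕ} {e k : ℕ} {H : HypS B a b t eps D u i e k} [NeZero e]
  [Fintype D] [DecidableEq D] {X : ∀ _ : σ, ClsW H.up (gN D u e) H.inj (2 * k) (RgN e k D)} {h : ℕ}

omit [DecidableEq Q] [DecidableEq D] [Fintype D] in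
theorem cmp_iff {v₀ : Fin e × D} {A : Fin e × D → Prop} (hA : CmpA e H.wD H.pD i k v₀ A) (s : σ)
    (r : RgN e k D) : A r.1 ↔ A (yN e H.wD (H.pD s) (i s) k r) := by
  rw [hA, hA]
  constructor
  · intro h1
    exact h1.tail ⟨s, r, Or.inl ⟨rfl, rfl⟩⟩
  · intro h1
    exact h1.tail ⟨s, r, Or.inr ⟨rfl, rfl⟩⟩

omit [DecidableEq D] in
theorem tau_iff (hX : IsS H X h) (s : σ) {E : Fin e × D → Prop}
    (hE : ∀ r : RgN e k D, E r.1 ↔ E (yN e H.wD (H.pD s) (i s) k r)) (r : RgN e k D) :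
    E r.1 ↔ E ((X s).tau r).1 := by
  have h1 : ∀ r, E ((X s).x r) ↔ E ((X s).y r) := by
    intro r
    rw [hX.x, hX.y]
    exact hE r
  have h2 := (hX.clo s E h1).tau_iff r
  rw [hX.x, hX.x] at h2
  exact h2

/-- A component is closed. -/
theorem clo (hX : IsS H X h) {v₀ : Fin e × D} {A : Fin e × D → Prop} (hA : CmpA e H.wD H.pD i k v₀ A) :
    (famS X).Clo A fun r => A r.2.1 := by
  have hcmp : ∀ s r, A ((X s).x r) ↔ A ((X s).y r) := by
    intro s r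
    rw [hX.x, hX.y]
    exact cmp_iff hA s r
  refine ⟨?_, ?_, ?_, ?_⟩
  · intro r hr
    show A ((X r.1).x r.2)
    rw [hX.x]
    exact hr
  · intro r hr
    show A ((X r.1).y r.2)
    rw [hX.y]
    exact (cmp_iff hA r.1 r.2).1 hr
  · intro r
    exact tau_iff hX r.1 (cmp_iff hA r.1) r.2
  · intro r hr s hs
    exact (hX.clo r.1 A (hcmp r.1)).tok r.2 (by rw [hX.x]; exact hr) s hs

end main

end Loc

open Loc in
/-- LOCA. -/
theorem locA (hCls : ClsAS) (hGr : GraphAS) (hFl : FlipAS) (hEx : N.ExaNS) (hEt : ExaTS) : LocAS := by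
  intro Q _ _ B a b σ _ _ t eps D u i e k H _ _ _ hNC x s₁ s₂ hx1 hx2 h12 hj1 hj2 A _ hA
  obtain ⟨X, hX⟩ := hCls Q B a b σ t eps D u i e k H
  obtain ⟨c₁, r₁, hf⟩ := hj1
  obtain ⟨c₂, r₂, hg⟩ := hj2
  have hPx : ∀ r, (famS X).puz.x r = r.2.1 := fun r => hX.x r.1 r.2
  have hPy : ∀ r, (famS X).puz.y r = yA e H.wD H.pD i k r := fun r => hX.y r.1 r.2
  have honf : ∀ (x s : Fin e × D) (c : σ) (r : RgN e k D), x ≠ s →
      ((r.1 = x ∧ yN e H.wD (H.pD c) (i c) k r = s) ∨ (r.1 = s ∧ yN e H.wD (H.pD c) (i c) k r = x)) →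
      (famS X).puz.On ⟨c, r⟩ x ∧ (famS X).puz.oth ⟨c, r⟩ x = s := by
    intro x s c r hne hr
    unfold SQ2.V.Puz.On SQ2.V.Puz.oth
    rw [hPx, hPy]
    have h0 : yA e H.wD H.pD i k ⟨c, r⟩ = yN e H.wD (H.pD c) (i c) k r := rfl
    rw [h0]
    rcases hr with ⟨h1, h2⟩ | ⟨h1, h2⟩
    · rw [h2]
      simp only [h1]
      exact ⟨Or.inl trivial, if_pos trivial⟩
    · rw [h2]
      simp only [h1]
      exact ⟨Or.inr trivial, if_neg hne⟩
  obtain ⟨hf1, hf2⟩ := honf _ _ _ _ hx1 hf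
  obtain ⟨hg1, hg2⟩ := honf _ _ _ _ hx2 hg
  have hadj : (famS X).puz.Adj ⟨c₂, r₂⟩ ⟨c₁, r₁⟩ x := by
    refine ⟨hg1, hf1, ?_⟩
    rw [hf2, hg2]
    exact h12.symm
  have hc := clo hX hA
  have hA0 : A x := (hA x).2 Relation.ReflTransGen.refl
  obtain ⟨hS, hT, hN, hC, hdeg⟩ := hGr σ D H.wD H.pD i e k H.ipos H.ilt H.kpos H.card hNC x A hA
    (fun r => A r.2.1) (fun _ => Iff.rfl) hc.puz (fun r => hPx r.1) (fun r => hPy r.1) (fun r => rfl)
    (by
      intro s E hE r hr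
      have h1 : (hc.puz.x r).1 = r.1.2.1 := hPx r.1
      have h2 : (hc.puz.x (hc.puz.tau r)).1 = ((X r.1.1).tau r.1.2).1 := hPx _
      rw [h1, h2]
      have hE' : ∀ r' : RgN e k D, E r'.1 ↔ E (yN e H.wD (H.pD r.1.1) (i r.1.1) k r') := by
        rw [hr]; exact hE
      exact tau_iff hX r.1.1 hE' r.1.2)
  have hflip := hFl Q B a b σ t eps D u i e k H X hX ⟨c₁, r₁⟩ ⟨c₂, r₂⟩ x hadj A hc hA0 hS
    (SQ2.V.Puz.HypK.of_scon hS hT hN hC) hdeg
  rw [hf2, hg2] at hflip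
  refine ⟨hflip.1, ?_⟩
  intro p hpp hp V ω hu hω h0 hsum hkap
  by_contra hno
  obtain ⟨s, s', hkap⟩ := hkap
  obtain ⟨h1, h2⟩ := hflip.2 p hpp hp V ω hu hω h0 hsum (by
    intro Y Y' n hn hF hV
    by_contra hne
    exact hno ⟨Y, Y', n, hn, hF, hV, hne⟩)
  exact kap_false H V hEx hEt hA hp hu h1 h2 s s' hkap

end Pool.Agent.Lib.MP_688fd0_co.SQ5.NA
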