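import Pool.Agent.Lib.MP_688fd0_co.SQ5.H95.Inst

/-!
MP_688fd0_co, type C2, case FAR-3, rows RUNARC and REGCONN (helper67).

`Runs`: the charts of the runs `z` (blocks `0 .. E z`), vertices of different runs are different. `Runs.rgs`: the regions of
helper95 (the first `N z * (l z + 1)` blocks). `EvE z z' s s'`: the strand `s` of the run `z` is continued by the strand `s'` of
the run `z'`.

RESULTS: `arc` (the arc through the event avoids the active strands), `Tr.radj`, `Tr.radj'` (three such arcs), `conn`.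
-/

set_option autoImplicit false

namespace Pool.Agent.Lib.MP_688fd0_co.SQ5.H67

open Function Pool.Agent.Lib.MP_688fd0_co.OSF Pool.Agent.Lib.MP_688fd0_co.SQ5.H95

universe u v w t

variable {G : Type u} [Group G] {B : Lb.{u, v} G}

/-- The charts of the runs. -/
structure Runs (F : HF B) (ι : Type w) (T : ι → Type t) where
  C : ∀ z, H22.Chart G (T z)
  E : ι → ℕ
  run : ∀ z, RnF F (C z) (E z)
  far : ∀ z z' m (s : T z) i m' (s' : T z') i', z ≠ z' → m ≤ E z → i ≤ (C z).h m s → m' ≤ E z' → i' ≤ (C z').h m' s' →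
    (C z).Z m s i ≠ (C z').Z m' s' i'

namespace Runs

variable {F : HF B} {ι : Type w} {T : ι → Type t} (P : Runs F ι T)

/-- The regions of helper95. -/
def rgs (l N : ι → ℕ) (hl : ∀ z, 1 ≤ l z) (hn : ∀ z, 0 < N z) (hE : ∀ z, N z * (l z + 1) ≤ P.E z) : Rgs F ι T N where
  C := P.C
  l := l
  hl := hl
  hn := hn
  run z := (P.run z).mono_E (hE z)
  far z z' m s i m' s' i' hne hm hi hm' _ hi' := P.far z z' m s i m' s' i' hne (hm.trans (hE z)) hi (hm'.trans (hE z')) hi'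

/-- The strand `s` of the run `z` is continued by the strand `s'` of the run `z'`. -/
def EvE (z z' : ι) (s : T z) (s' : T z') : Prop :=
  F.Ed ((P.C z).Z (P.E z) s ((P.C z).h (P.E z) s)) ((P.C z').Z 0 s' 0)

variable {P} {l N : ι → ℕ} {hl : ∀ z, 1 ≤ l z} {hn : ∀ z, 0 < N z} {hE : ∀ z, N z * (l z + 1) ≤ P.E z}

/-- Vertices outside of the layers are not active. -/
theorem not_actR (V : ∀ z, Set (T z)) {z : ι} {s : T z} {m i : ℕ} (hm : m ≤ P.E z) (hi : i ≤ (P.C z).h m s)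
    (h : m = 0 ∨ N z * (l z + 1) ≤ m) : ¬ (P.rgs l N hl hn hE).ActR V ((P.C z).Z m s i) := by
  rintro ⟨z1, m1, s1, i1, -, h1, h2, h3, h4⟩
  have h2 : m1 < N z1 * (l z1 + 1) := h2
  have hE1 := hE z1
  by_cases hz : z = z1
  · subst hz
    obtain ⟨e1, -, -⟩ := (P.run z).inj m s i m1 s1 i1 hm (by omega) hi h3 h4
    omega
  · exact P.far z z1 m s i m1 s1 i1 hz hm hi (by omega) h3 h4

/-- THE ARC through the event. -/
theorem arc (V : ∀ z, Set (T z)) {z z' : ι} {s : T z} {s' : T z'} (he : P.EvE z z' s s') :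
    H22.Cn F.Ed {x | ¬ (P.rgs l N hl hn hE).ActR V x} ((P.rgs l N hl hn hE).ev z (s, true))
      ((P.rgs l N hl hn hE).ev z' (s', false)) := by
  have h0 := hE z
  have a1 : ¬ (P.rgs l N hl hn hE).ActR V ((P.C z).Z (P.E z) s ((P.C z).h (P.E z) s)) :=
    not_actR V le_rfl le_rfl (Or.inr h0)
  have a2 : ¬ (P.rgs l N hl hn hE).ActR V ((P.C z').Z 0 s' 0) := not_actR V (Nat.zero_le _) (Nat.zero_le _) (Or.inl rfl)
  have k1 : H22.Cn F.Ed {x | ¬ (P.rgs l N hl hn hE).ActR V x} ((P.C z).Z (N z * (l z + 1)) s 0)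
      ((P.C z).Z (P.E z) s ((P.C z).h (P.E z) s)) :=
    (P.run z).up_cn (F' := F) h0 le_rfl s {x | ¬ (P.rgs l N hl hn hE).ActR V x}
      (fun m' i h1 h2 h3 => not_actR V h2 h3 (Or.inr h1)) (fun _ _ _ _ _ => rfl) _ le_rfl
  have k2 : H22.Cn F.Ed {x | ¬ (P.rgs l N hl hn hE).ActR V x} ((P.C z').Z 0 s' 0) ((P.C z').Z 0 s' ((P.C z').h 0 s')) :=
    (P.run z').line_cn (Nat.zero_le _) _ (fun i hi => not_actR V (Nat.zero_le _) hi (Or.inl rfl)) _ le_rfl
  exact (k1.tail ⟨he, a1, a2⟩).trans k2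

variable (P) in
/-- Three strands of the component `k` of the run `z` are continued in the component `k'` of the run `z'`. -/
def Tr {K : ι → Type w} (V : ∀ z, Set (T z)) (cp : ∀ z, V z → K z) (z z' : ι) (k : K z) (k' : K z') : Prop :=
  ∃ (p : Fin 3 → V z) (q : Fin 3 → V z'), Injective p ∧ Injective q ∧
    ∀ i, cp z (p i) = k ∧ cp z' (q i) = k' ∧ P.EvE z z' (p i).1 (q i).1

theorem ne_ends {V : ∀ z, Set (T z)} {z z' : ι} {p : V z} {q : V z'} :
    (⟨z, (p, true)⟩ : Σ z, V z × Bool) ≠ ⟨z', (q, false)⟩ := by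
  intro h
  obtain rfl : z = z' := congrArg Sigma.fst h
  have h1 := eq_of_heq (Sigma.mk.inj h).2
  have h2 := congrArg Prod.snd h1
  exact absurd h2 (by simp)

variable {K : ι → Type w} {V : ∀ z, Set (T z)} {cp : ∀ z, V z → K z}

/-- Upwards. -/
theorem Tr.radj {z z' : ι} {k : K z} {k' : K z'} (h : P.Tr V cp z z' k k') :
    (P.rgs l N hl hn hE).RAdj V cp ⟨z, k⟩ ⟨z', k'⟩ := by
  obtain ⟨p, q, hp, hq, h1⟩ := h
  refine ⟨fun i => (p i, true), fun i => (q i, false), fun i j hij => hp (congrArg Prod.fst hij), fun i => ?_⟩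
  exact ⟨(h1 i).1, (h1 i).2.1, ne_ends, arc V (h1 i).2.2⟩

/-- Downwards. -/
theorem Tr.radj' {z z' : ι} {k : K z} {k' : K z'} (h : P.Tr V cp z z' k k') :
    (P.rgs l N hl hn hE).RAdj V cp ⟨z', k'⟩ ⟨z, k⟩ := by
  obtain ⟨p, q, hp, hq, h1⟩ := h
  refine ⟨fun i => (q i, false), fun i => (p i, true), fun i j hij => hq (congrArg Prod.fst hij), fun i => ?_⟩
  exact ⟨(h1 i).2.1, (h1 i).1, ne_ends.symm, (arc V (h1 i).2.2).symm' fun _ _ h => F.ed_symm h⟩

/-- THE REGION GRAPH IS CONNECTED, if it is connected by `Tr`. -/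
theorem conn {r₀ : Σ z, K z} (h : ∀ r, Relation.EqvGen (fun r r' : Σ z, K z => P.Tr V cp r.1 r'.1 r.2 r'.2) r₀ r)
    (r : Σ z, K z) : Relation.ReflTransGen ((P.rgs l N hl hn hE).RAdj V cp) r₀ r := by
  have key : ∀ r r', Relation.EqvGen (fun r r' : Σ z, K z => P.Tr V cp r.1 r'.1 r.2 r'.2) r r' →
      Relation.ReflTransGen ((P.rgs l N hl hn hE).RAdj V cp) r r' ∧
      Relation.ReflTransGen ((P.rgs l N hl hn hE).RAdj V cp) r' r := by
    intro r r' h
    induction h with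
    | rel r r' h => exact ⟨Relation.ReflTransGen.single h.radj, Relation.ReflTransGen.single h.radj'⟩
    | refl r => exact ⟨Relation.ReflTransGen.refl, Relation.ReflTransGen.refl⟩
    | symm r r' _ ih => exact ⟨ih.2, ih.1⟩
    | trans r r' r'' _ _ ih ih' => exact ⟨ih.1.trans ih'.1, ih'.2.trans ih.2⟩
  exact (key _ _ (h r)).1

end Runs

end Pool.Agent.Lib.MP_688fd0_co.SQ5.H67
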