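import Pool.Agent.Lib.MP_688fd0_co.SQ5.H76.Pull

/-!
MP_688fd0_co, type C2, case B3 (helper67): the strands between aligned walls.

The walls `K0 .. K1` have the same letter on every level of an interval of levels (events allowed). The strand which is at
level `s` at the wall `K` (white wall site) goes along the line to the black wall site of the wall `K + dr K s` at level
`s + 1` (`dr = -1` for the letter `a`, `1` for `b`) and through the t-edge to the white wall site.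
-/

set_option autoImplicit false

namespace Pool.Agent.Lib.MP_688fd0_co.SQ5.H67

open Pool.Agent.Lib.MP_688fd0_co.OSF Pool.Agent.Lib.MP_688fd0_co.SQ5.H95 Pool.Agent.Lib.MP_688fd0_co.SQ5.H76

/-! ### The vertices of a line -/

theorem lv_even {s c : ℤ} (h : (c - s) % 2 = 0) : Pat.lv s c = (true, (s + c) / 2, (s - c) / 2) := if_pos h

theorem lv_odd {s c : ℤ} (h : (c - s) % 2 ≠ 0) : Pat.lv s c = (false, (s + 1 + c) / 2, (s + 1 - c) / 2) := if_neg h

theorem lv_inj {s c s' c' : ℤ} (h : Pat.lv s c = Pat.lv s' c') : s = s' ∧ c = c' := by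
  rcases eq_or_ne ((c - s) % 2) 0 with h1 | h1 <;> rcases eq_or_ne ((c' - s') % 2) 0 with h2 | h2
  · rw [lv_even h1, lv_even h2] at h
    simp only [Prod.mk.injEq, true_and] at h
    omega
  · rw [lv_even h1, lv_odd h2] at h
    simp at h
  · rw [lv_odd h1, lv_even h2] at h
    simp at h
  · rw [lv_odd h1, lv_odd h2] at h
    simp only [Prod.mk.injEq, true_and] at h
    omega

/-- Translation. -/
theorem lv_tr (s c di dj : ℤ) : Pat.lv (s + (di + dj)) (c + (di - dj)) =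
    ((Pat.lv s c).1, (Pat.lv s c).2 + (di, dj)) := by
  by_cases h1 : (c - s) % 2 = 0
  · rw [lv_even h1, lv_even (by omega)]
    refine Prod.ext rfl (Prod.ext ?_ ?_)
    · show (s + (di + dj) + (c + (di - dj))) / 2 = (s + c) / 2 + di
      omega
    · show (s + (di + dj) - (c + (di - dj))) / 2 = (s - c) / 2 + dj
      omega
  · rw [lv_odd h1, lv_odd (by omega)]
    refine Prod.ext rfl (Prod.ext ?_ ?_)
    · show (s + (di + dj) + 1 + (c + (di - dj))) / 2 = (s + 1 + c) / 2 + di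
      omega
    · show (s + (di + dj) + 1 - (c + (di - dj))) / 2 = (s + 1 - c) / 2 + dj
      omega

/-- The letter between consecutive columns of a line. -/
def lt (s c : ℤ) : L3 := if (c - s) % 2 = 0 then .a else .b

theorem nb_lv (s c : ℤ) : nb (Pat.lv s c) (lt s c) = Pat.lv s (c + 1) := by
  unfold lt
  by_cases h : (c - s) % 2 = 0
  · rw [if_pos h, lv_even h, lv_odd (by omega)]
    refine Prod.ext rfl (Prod.ext ?_ ?_)
    · show (s + c) / 2 + 1 = (s + 1 + (c + 1)) / 2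
      omega
    · show (s - c) / 2 = (s + 1 - (c + 1)) / 2
      omega
  · rw [if_neg h, lv_odd h, lv_even (by omega)]
    refine Prod.ext rfl (Prod.ext ?_ ?_)
    · show (s + 1 + c) / 2 = (s + (c + 1)) / 2
      omega
    · show (s + 1 - c) / 2 - 1 = (s - (c + 1)) / 2
      omega

theorem nb_lv' (s c : ℤ) : nb (Pat.lv s (c + 1)) (lt s c) = Pat.lv s c := by
  rw [← nb_lv, nb_nb]

theorem lv_t {s c : ℤ} (h : (c - (s + 1)) % 2 = 0) : Pat.lv (s + 1) c = nb (Pat.lv s c) .t := by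
  rw [lv_even h, lv_odd (s := s) (c := c) (by omega)]
  rfl

section pat

variable (p : Pat)

/-- The edges of a line. -/
theorem Mt_line {K s c : ℤ} (h1 : p.cL K s ≤ c) (h2 : c + 1 ≤ p.cR K s) : p.Mt (Pat.lv s c) ≠ lt s c := by
  have hp := p.par
  unfold Pat.cL at h1
  unfold Pat.cR at h2
  have g1 := p.gap K s
  unfold lt
  by_cases h : (c - s) % 2 = 0
  · rw [if_pos h, lv_even h, Ne, p.Mt_pa]
    rintro ⟨K', h3, h4⟩
    have e1 : (s + c) / 2 + (s - c) / 2 = s := by omega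
    have e2 : (s + c) / 2 - (s - c) / 2 = c := by omega
    rw [e1, e2] at h3
    rw [e1] at h4
    rcases lt_trichotomy K' K with h5 | h5 | h5
    · have := p.C_lt h5 s
      split_ifs at h1 <;> omega
    · subst h5
      rw [if_pos h4] at h1
      omega
    · rcases lt_or_eq_of_le (show K + 1 ≤ K' by omega) with h6 | h6
      · have := p.C_lt h6 s
        split_ifs at h2 <;> omega
      · subst h6
        split_ifs at h2 <;> omega
  · rw [if_neg h]
    intro h3
    have h4 : p.Mt (nb (Pat.lv s c) (lt s c)) = lt s c := by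
      rw [p.Mt_nb, h3]
      unfold lt
      rw [if_neg h]
    rw [nb_lv, lv_even (by omega)] at h4
    have h5 : lt s c = .b := if_neg h
    rw [h5, p.Mt_pb] at h4
    obtain ⟨K', h6, h7⟩ := h4
    have e1 : (s + (c + 1)) / 2 + (s - (c + 1)) / 2 = s := by omega
    have e2 : (s + (c + 1)) / 2 - (s - (c + 1)) / 2 = c + 1 := by omega
    rw [e1, e2] at h6
    rw [e1] at h7
    rcases lt_trichotomy K' K with h5 | h5 | h5
    · have := p.C_lt h5 s
      split_ifs at h1 <;> omega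
    · subst h5
      split_ifs at h1 <;> omega
    · rcases lt_or_eq_of_le (show K + 1 ≤ K' by omega) with h8 | h8
      · have := p.C_lt h8 s
        split_ifs at h2 <;> omega
      · subst h8
        rw [if_neg (by rw [h7]; decide)] at h2
        omega

theorem E_line {K s c : ℤ} (h1 : p.cL K s ≤ c) (h2 : c + 1 ≤ p.cR K s) : p.E (Pat.lv s c) (Pat.lv s (c + 1)) :=
  ⟨lt s c, Mt_line p h1 h2, (nb_lv s c).symm⟩

/-- The t-edge at a wall. -/
theorem E_wall (K s : ℤ) : p.E (Pat.lv s (p.C K (s + 1))) (Pat.lv (s + 1) (p.C K (s + 1))) := by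
  have h := p.par K (s + 1)
  refine ⟨.t, ?_, ?_⟩
  · rw [lv_odd (by omega), Ne, p.Mt_t_iff]
    intro h1
    apply h1 K
    have e : (s + 1 + p.C K (s + 1)) / 2 + (s + 1 - p.C K (s + 1)) / 2 = s + 1 := by omega
    rw [e]
    omega
  · exact lv_t h

/-- The lines of one level are disjoint. -/
theorem cL_succ (K s : ℤ) : p.cL (K + 1) s = p.cR K s + 1 := by
  unfold Pat.cL Pat.cR
  split_ifs <;> omega

theorem cR_le {K K' : ℤ} (h : K ≤ K') (s : ℤ) : p.cR K s ≤ p.cR K' s := by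
  obtain ⟨n, rfl⟩ : ∃ n : ℕ, K' = K + n := ⟨(K' - K).toNat, by omega⟩
  clear h
  induction n with
  | zero => simp
  | succ n ih =>
    refine ih.trans ?_
    have e : K + ((n + 1 : ℕ) : ℤ) = K + n + 1 := by push_cast; ring
    rw [e]
    unfold Pat.cR
    have := p.gap (K + n + 1) s
    split_ifs <;> omega

theorem line_K {K K' s c : ℤ} (h1 : p.cL K s ≤ c) (h2 : c ≤ p.cR K s) (h1' : p.cL K' s ≤ c) (h2' : c ≤ p.cR K' s) :
    K = K' := by
  have key : ∀ {K K' : ℤ}, K < K' → p.cR K s < p.cL K' s := by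
    intro K K' h
    have h3 := cL_succ p (K' - 1) s
    rw [sub_add_cancel] at h3
    have h4 := cR_le p (show K ≤ K' - 1 by omega) s
    omega
  rcases lt_trichotomy K K' with h | h | h
  · have := key h
    omega
  · exact h
  · have := key h
    omega

/-! ### Strands -/

/-- The direction of the strand which starts at the wall `K` at level `s`. -/
def dr (K s : ℤ) : ℤ := if p.W K s = true then -1 else 1

theorem dr_cases (K s : ℤ) : (p.W K s = true ∧ dr p K s = -1 ∧ p.C K (s + 1) = p.C K s + 1) ∨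
    (p.W K s = false ∧ dr p K s = 1 ∧ p.C K (s + 1) = p.C K s - 1) := by
  unfold dr
  rw [p.hC]
  cases h : p.W K s
  · right; simp; ring
  · left; simp

/-- The line of the strand at level `s`. -/
def ln (K s : ℤ) : ℤ := if p.W K s = true then K - 1 else K

/-- The number of steps at level `s`. -/
def hh (K s : ℤ) : ℕ := ((p.C (K + dr p K s) (s + 1) - p.C K s) * dr p K s).toNat

/-- The sites of the strand. -/
def st (K s : ℤ) (r : ℕ) : V := Pat.lv s (p.C K s + dr p K s * r)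

/-- The next strip is aligned. -/
def Alg (K s : ℤ) : Prop := p.W (K + dr p K s) s = p.W K s

variable {p}

theorem hh_eq {K s : ℤ} (h : Alg p K s) : p.C (K + dr p K s) (s + 1) = p.C K s + dr p K s * hh p K s ∧ 1 ≤ hh p K s := by
  unfold Alg at h
  unfold hh
  rcases dr_cases p K s with ⟨h1, h2, h3⟩ | ⟨h1, h2, h3⟩
  · rw [h2] at h ⊢
    have h4 := p.hC (K + -1) s
    rw [h, if_pos h1] at h4
    have h5 := p.gap (K + -1) s
    rw [show K + -1 + 1 = K by ring] at h5
    constructor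
    · rw [Int.toNat_of_nonneg (by omega)]; ring
    · omega
  · rw [h2] at h ⊢
    have h4 := p.hC (K + 1) s
    rw [h, if_neg (by rw [h1]; decide)] at h4
    have h5 := p.gap K s
    constructor
    · rw [Int.toNat_of_nonneg (by omega)]; ring
    · omega

theorem st_zero (K s : ℤ) : st p K s 0 = Pat.lv s (p.C K s) := by
  unfold st; simp

theorem st_last {K s : ℤ} (h : Alg p K s) : st p K s (hh p K s) = Pat.lv s (p.C (K + dr p K s) (s + 1)) := by
  unfold st
  rw [(hh_eq h).1]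

/-- The columns of the strand are on its line. -/
theorem st_col {K s : ℤ} (h : Alg p K s) {r : ℕ} (hr : r ≤ hh p K s) :
    p.cL (ln p K s) s ≤ p.C K s + dr p K s * r ∧ p.C K s + dr p K s * r ≤ p.cR (ln p K s) s := by
  have h6 := hh_eq h
  unfold Alg at h
  rcases dr_cases p K s with ⟨h1, h2, h3⟩ | ⟨h1, h2, h3⟩
  · rw [h2] at h h6 ⊢
    unfold ln Pat.cL Pat.cR
    rw [if_pos h1, show K - 1 + 1 = K by ring, if_pos h1, show K - 1 = K + -1 by ring, if_pos (by rw [h, h1])]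
    have h4 := p.hC (K + -1) s
    rw [h, if_pos h1] at h4
    have h7 : (r : ℤ) ≤ hh p K s := by exact_mod_cast hr
    constructor
    · linarith [h6.1]
    · have := Int.natCast_nonneg r
      linarith
  · rw [h2] at h h6 ⊢
    unfold ln Pat.cL Pat.cR
    have h8 : ¬ p.W K s = true := by rw [h1]; decide
    rw [if_neg h8, if_neg h8, if_neg (by rw [h]; exact h8)]
    have h4 := p.hC (K + 1) s
    rw [h, if_neg h8] at h4
    have h7 : (r : ℤ) ≤ hh p K s := by exact_mod_cast hr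
    constructor
    · have := Int.natCast_nonneg r
      linarith
    · linarith [h6.1]

theorem st_onL {K s : ℤ} (h : Alg p K s) {r : ℕ} (hr : r ≤ hh p K s) : p.onL (ln p K s, s) (st p K s r) :=
  ⟨_, (st_col h hr).1, (st_col h hr).2, rfl⟩

/-- The letter of the step `r`. -/
def sl (p : Pat) (K s : ℤ) (r : ℕ) : L3 :=
  if p.W K s = true then lt s (p.C K s - (r + 1)) else lt s (p.C K s + r)

theorem st_step {K s : ℤ} (h : Alg p K s) {r : ℕ} (hr : r < hh p K s) :
    p.Mt (st p K s r) ≠ sl p K s r ∧ st p K s (r + 1) = nb (st p K s r) (sl p K s r) := by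
  have c1 := st_col h hr.le
  have c2 := st_col h (r := r + 1) hr
  unfold st sl
  rcases dr_cases p K s with ⟨h1, h2, h3⟩ | ⟨h1, h2, h3⟩
  · rw [h2] at c1 c2 ⊢
    rw [if_pos h1]
    push_cast at c1 c2 ⊢
    have e1 : p.C K s + -1 * ((r : ℤ) + 1) = p.C K s - (r + 1) := by ring
    have e2 : p.C K s + -1 * (r : ℤ) = p.C K s - (r + 1) + 1 := by ring
    rw [e1] at c2 ⊢
    rw [e2] at c1 ⊢
    refine ⟨fun h5 => ?_, (nb_lv' _ _).symm⟩
    refine Mt_line p c2.1 c1.2 ?_
    have h6 := p.Mt_nb (Pat.lv s (p.C K s - (r + 1) + 1)) (lt s (p.C K s - (r + 1)))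
    rw [nb_lv'] at h6
    exact h6.2 h5
  · rw [h2] at c1 c2 ⊢
    rw [if_neg (by rw [h1]; decide)]
    have e0 : p.C K s + 1 * (r : ℤ) = p.C K s + r := by ring
    have e1 : p.C K s + 1 * ((r + 1 : ℕ) : ℤ) = p.C K s + r + 1 := by push_cast; ring
    rw [e0] at c1 ⊢
    rw [e1] at c2 ⊢
    exact ⟨Mt_line p c1.1 c2.2, (nb_lv _ _).symm⟩

theorem st_E {K s : ℤ} (h : Alg p K s) {r : ℕ} (hr : r < hh p K s) : p.E (st p K s r) (st p K s (r + 1)) :=
  ⟨_, (st_step h hr).1, (st_step h hr).2⟩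

/-- The t-edge. -/
theorem st_gate {K s : ℤ} (h : Alg p K s) :
    p.Mt (st p K s (hh p K s)) ≠ .t ∧ st p (K + dr p K s) (s + 1) 0 = nb (st p K s (hh p K s)) .t := by
  rw [st_last h, st_zero]
  obtain ⟨i, h1, h2⟩ := E_wall p (K + dr p K s) s
  have h3 := p.par (K + dr p K s) (s + 1)
  have h4 : Pat.lv (s + 1) (p.C (K + dr p K s) (s + 1)) = nb (Pat.lv s (p.C (K + dr p K s) (s + 1))) .t := lv_t h3
  have h5 : i = .t := by
    rw [h4, lv_odd (by omega)] at h2
    have h6 := congrArg Prod.snd h2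
    cases i
    · exfalso
      have h7 := congrArg Prod.fst h6
      dsimp only [nb] at h7
      omega
    · exfalso
      have h7 := congrArg Prod.snd h6
      dsimp only [nb] at h7
      omega
    · rfl
  subst h5
  exact ⟨h1, h4⟩

theorem st_inj {K s K' s' : ℤ} (h : Alg p K s) (h' : Alg p K' s') {r r' : ℕ} (hr : r ≤ hh p K s)
    (hr' : r' ≤ hh p K' s') (e : st p K s r = st p K' s' r') : s = s' ∧ ln p K s = ln p K' s' ∧
      p.C K s + dr p K s * r = p.C K' s' + dr p K' s' * r' := by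
  obtain ⟨rfl, e2⟩ := lv_inj e
  refine ⟨rfl, ?_, e2⟩
  have c1 := st_col h hr
  have c2 := st_col h' hr'
  rw [e2] at c1
  exact line_K p c1.1 c1.2 c2.1 c2.2

/-! ### Strands on an interval of levels -/

/-- The walls `K0 .. K1` have the same letters at the levels `s0 .. s1 - 1`. -/
def Aln (p : Pat) (K0 K1 s0 s1 : ℤ) : Prop := ∀ K s, K0 ≤ K → K ≤ K1 → s0 ≤ s → s < s1 → p.W K s = p.W K0 s

/-- The strand with the label `lam` (wall plus column of the wall `K0`) stays at the walls `K0 .. K1`. -/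
def Stay (p : Pat) (K0 K1 s0 s1 lam : ℤ) : Prop :=
  ∀ s, s0 ≤ s → s ≤ s1 → K0 ≤ lam - p.C K0 s ∧ lam - p.C K0 s ≤ K1

variable {K0 K1 s0 s1 lam : ℤ}

theorem Aln.sub {s0' s1' : ℤ} (h : Aln p K0 K1 s0 s1) (h0 : s0 ≤ s0') (h1 : s1' ≤ s1) : Aln p K0 K1 s0' s1' :=
  fun K s a1 a2 a3 a4 => h K s a1 a2 (h0.trans a3) (lt_of_lt_of_le a4 h1)

theorem Stay.sub {s0' s1' : ℤ} (h : Stay p K0 K1 s0 s1 lam) (h0 : s0 ≤ s0') (h1 : s1' ≤ s1) :
    Stay p K0 K1 s0' s1' lam := fun s a1 a2 => h s (h0.trans a1) (a2.trans h1)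

/-- The next wall. -/
theorem wall_succ (hA : Aln p K0 K1 s0 s1) (hS : Stay p K0 K1 s0 s1 lam) {s : ℤ} (h0 : s0 ≤ s) (h1 : s < s1) :
    lam - p.C K0 (s + 1) = lam - p.C K0 s + dr p (lam - p.C K0 s) s ∧ Alg p (lam - p.C K0 s) s := by
  have a1 := hS s h0 h1.le
  have a2 := hS (s + 1) (by omega) (by omega)
  have b1 := hA _ s a1.1 a1.2 h0 h1
  have e : lam - p.C K0 (s + 1) = lam - p.C K0 s + dr p (lam - p.C K0 s) s := by
    have h2 := p.hC K0 s
    unfold dr
    rw [b1]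
    rw [h2]
    split_ifs <;> ring
  refine ⟨e, ?_⟩
  unfold Alg
  rw [← e, hA _ s a2.1 a2.2 h0 h1, b1]

/-- The line of the strand is between the walls `K0` and `K1`. -/
theorem ln_mem (hA : Aln p K0 K1 s0 s1) (hS : Stay p K0 K1 s0 s1 lam) {s : ℤ} (h0 : s0 ≤ s) (h1 : s < s1) :
    K0 ≤ ln p (lam - p.C K0 s) s ∧ ln p (lam - p.C K0 s) s < K1 := by
  have a1 := hS s h0 h1.le
  have a2 := hS (s + 1) (by omega) (by omega)
  have e := (wall_succ hA hS h0 h1).1
  unfold dr at e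
  unfold ln
  split_ifs at e ⊢ <;> omega

/-- Sites of the strand `lam` at the level `s`. -/
def sg (p : Pat) (K0 lam s : ℤ) (r : ℕ) : V := st p (lam - p.C K0 s) s r

/-- The number of steps at level `s`. -/
def hg (p : Pat) (K0 lam s : ℤ) : ℕ := hh p (lam - p.C K0 s) s

theorem sg_E (hA : Aln p K0 K1 s0 s1) (hS : Stay p K0 K1 s0 s1 lam) {s : ℤ} (h0 : s0 ≤ s) (h1 : s < s1) {r : ℕ}
    (hr : r < hg p K0 lam s) : p.E (sg p K0 lam s r) (sg p K0 lam s (r + 1)) :=
  st_E (wall_succ hA hS h0 h1).2 hr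

theorem sg_gate (hA : Aln p K0 K1 s0 s1) (hS : Stay p K0 K1 s0 s1 lam) {s : ℤ} (h0 : s0 ≤ s) (h1 : s < s1) :
    p.Mt (sg p K0 lam s (hg p K0 lam s)) ≠ .t ∧ sg p K0 lam (s + 1) 0 = nb (sg p K0 lam s (hg p K0 lam s)) .t := by
  obtain ⟨e, h⟩ := wall_succ hA hS h0 h1
  unfold sg hg
  rw [e]
  exact st_gate h

theorem sg_onL (hA : Aln p K0 K1 s0 s1) (hS : Stay p K0 K1 s0 s1 lam) {s : ℤ} (h0 : s0 ≤ s) (h1 : s < s1) {r : ℕ}
    (hr : r ≤ hg p K0 lam s) : p.onL (ln p (lam - p.C K0 s) s, s) (sg p K0 lam s r) :=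
  st_onL (wall_succ hA hS h0 h1).2 hr

/-- The sites of the lines of the strands between the walls `K0` and `K1` at the levels `s0 .. s1 - 1`. -/
def Bx (p : Pat) (K0 K1 s0 s1 : ℤ) (v : V) : Prop := ∃ K s, K0 ≤ K ∧ K < K1 ∧ s0 ≤ s ∧ s < s1 ∧ p.onL (K, s) v

theorem sg_box (hA : Aln p K0 K1 s0 s1) (hS : Stay p K0 K1 s0 s1 lam) {s : ℤ} (h0 : s0 ≤ s) (h1 : s < s1) {r : ℕ}
    (hr : r ≤ hg p K0 lam s) : Bx p K0 K1 s0 s1 (sg p K0 lam s r) :=
  ⟨_, s, (ln_mem hA hS h0 h1).1, (ln_mem hA hS h0 h1).2, h0, h1, sg_onL hA hS h0 h1 hr⟩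

/-- Along one level. -/
theorem sg_row (hA : Aln p K0 K1 s0 s1) (hS : Stay p K0 K1 s0 s1 lam) {s : ℤ} (h0 : s0 ≤ s) (h1 : s < s1) {r : ℕ}
    (hr : r ≤ hg p K0 lam s) : p.Cn (Bx p K0 K1 s0 s1) (sg p K0 lam s 0) (sg p K0 lam s r) := by
  induction r with
  | zero => exact Relation.ReflTransGen.refl
  | succ r ih =>
    exact (ih (by omega)).tail ⟨sg_E hA hS h0 h1 (by omega), sg_box hA hS h0 h1 (by omega), sg_box hA hS h0 h1 hr⟩

/-- THE PATH OF THE STRAND: from the white wall site of level `s0` to the black wall site before level `s1`. -/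
theorem sg_path (n : ℕ) (hA : Aln p K0 K1 s0 (s0 + n + 1)) (hS : Stay p K0 K1 s0 (s0 + n + 1) lam) :
    p.Cn (Bx p K0 K1 s0 (s0 + n + 1)) (sg p K0 lam s0 0) (sg p K0 lam (s0 + n) (hg p K0 lam (s0 + n))) := by
  induction n with
  | zero =>
    simp only [Nat.cast_zero, add_zero] at hA hS ⊢
    exact sg_row hA hS le_rfl (by omega) le_rfl
  | succ n ih =>
    have hn : (0 : ℤ) ≤ n := Int.natCast_nonneg n
    have e : s0 + ((n + 1 : ℕ) : ℤ) = s0 + n + 1 := by push_cast; ring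
    rw [e] at hA hS ⊢
    have h1 := ih (hA.sub le_rfl (by omega)) (hS.sub le_rfl (by omega))
    have h2 : p.Cn (Bx p K0 K1 s0 (s0 + n + 1 + 1)) (sg p K0 lam s0 0) (sg p K0 lam (s0 + n) (hg p K0 lam (s0 + n))) :=
      Pat.Cn.mono (fun v ⟨K, s, a1, a2, a3, a4, a5⟩ => ⟨K, s, a1, a2, a3, by omega, a5⟩) h1
    have h3 := sg_gate hA hS (s := s0 + n) (by omega) (by omega)
    refine h2.trans (Pat.Cn.trans (Relation.ReflTransGen.single ⟨⟨.t, h3.1, h3.2⟩, ?_, ?_⟩) ?_)
    · exact sg_box hA hS (by omega) (by omega) le_rfl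
    · exact sg_box hA hS (by omega) (by omega) (Nat.zero_le _)
    · exact sg_row hA hS (by omega) (by omega) le_rfl

/-- Different strands have different sites. -/
theorem sg_inj {lam' : ℤ} (hA : Aln p K0 K1 s0 s1) (hS : Stay p K0 K1 s0 s1 lam) (hS' : Stay p K0 K1 s0 s1 lam')
    {s s' : ℤ} (h0 : s0 ≤ s) (h1 : s < s1) (h0' : s0 ≤ s') (h1' : s' < s1) {r r' : ℕ} (hr : r ≤ hg p K0 lam s)
    (hr' : r' ≤ hg p K0 lam' s') (e : sg p K0 lam s r = sg p K0 lam' s' r') : s = s' ∧ lam = lam' ∧ r = r' := by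
  obtain ⟨rfl, e2, e3⟩ := st_inj (wall_succ hA hS h0 h1).2 (wall_succ hA hS' h0' h1').2 hr hr' e
  have a1 := hS s h0 h1.le
  have a2 := hS' s h0 h1.le
  have b1 := hA _ s a1.1 a1.2 h0 h1
  have b2 := hA _ s a2.1 a2.2 h0 h1
  have e4 : lam - p.C K0 s = lam' - p.C K0 s := by
    unfold ln at e2
    rw [b1, b2] at e2
    split_ifs at e2 <;> omega
  rw [e4] at e3
  refine ⟨rfl, by omega, ?_⟩
  have h5 : dr p (lam' - p.C K0 s) s ≠ 0 := by
    unfold dr
    split_ifs <;> norm_num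
  have h6 := mul_left_cancel₀ h5 (add_left_cancel e3)
  exact_mod_cast h6

end pat

end Pool.Agent.Lib.MP_688fd0_co.SQ5.H67
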